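import Pool.Agent.Helper79.GL4.GoalsA

/-!
# GL4, packet TRZ (MP_27a5f8_al)
-/

namespace Pool.Agent.Helper8.GL4T

open Module Submodule GL4

section
variable {F : Type} [Field F] {V : Type} [AddCommGroup V] [Module F V] [FiniteDimensional F V]

theorem exists_second {P L E : Submodule F V} (hP : Pt P) (hL : Ln L) (hPL : P ≤ L) (hE : Pl E)
    (hLE : L ≤ E) : ∃ M, Ln M ∧ P ≤ M ∧ L ≠ M ∧ M ≤ E ∧ L ⊔ M = E := by
  have hn : ¬ E ≤ L := by
    intro h
    have := Submodule.finrank_mono h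
    rw [Pl] at hE
    rw [Ln] at hL
    omega
  obtain ⟨x, hx, hxE, hxL⟩ := exists_pt_not_le hn
  have hPx : P ≠ x := by
    rintro rfl
    exact hxL hPL
  have hM : Ln (P ⊔ x) := ln_sup hP hx hPx
  have hne : L ≠ P ⊔ x := by
    intro h
    apply hxL
    rw [h]
    exact le_sup_right
  have hle : P ⊔ x ≤ E := sup_le (hPL.trans hLE) hxE
  refine ⟨P ⊔ x, hM, le_sup_left, hne, hle, ?_⟩
  apply Submodule.eq_of_le_of_finrank_le (sup_le hLE hle)
  have h1 : L < L ⊔ (P ⊔ x) := by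
    refine lt_of_le_of_ne le_sup_left fun he => hxL ?_
    rw [he]
    exact (le_sup_right).trans le_sup_right
  have h2 := Submodule.finrank_lt_finrank_of_lt h1
  rw [Pl] at hE
  rw [Ln] at hL
  omega

end

theorem trz (hTT : GL4.TT) (hSLT : GL4.SLT) : GL4.TRZ := by
  intro F _ _ V _ _ _ K hn hK Z hZ hLZ
  have key : ∀ P L P' L' E, Pt P → Ln L → P ≤ L → Pt P' → Ln L' → P' ≤ L' → Pl E → L ≤ E →
      L' ≤ E → E ≤ Z P L → E ≤ Z P' L' := by
    intro P L P' L' E hP hL hPL hP' hL' hPL' hE hLE hLE' h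
    obtain ⟨M, hM, hPM, hLM, hME, hsup⟩ := exists_second hP hL hPL hE hLE
    obtain ⟨M', hM', hPM', hLM', hME', hsup'⟩ := exists_second hP' hL' hPL' hE hLE'
    obtain ⟨k, hk, k1, k2, k3⟩ := hSLT F V K E (hTT F V K hn hK E hE) P L M P' L' M' hP hL hM hP'
      hL' hM' hPL hPM hLM hPL' hPM' hLM' hLE hME hLE' hME'
    have hkE : im k E = E := by
      conv_lhs => rw [← hsup]
      rw [im_sup, k2, k3, hsup']
    rw [← k1, ← k2, hZ k hk P L hP hL hPL, ← hkE]
    exact im_mono k h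
  refine ⟨fun P L P' L' E hP hL hPL hP' hL' hPL' hE hLE hLE' =>
    ⟨key P L P' L' E hP hL hPL hP' hL' hPL' hE hLE hLE',
      key P' L' P L E hP' hL' hPL' hP hL hPL hE hLE' hLE⟩, ?_⟩
  have key2 : ∀ P P' L, Pt P → Pt P' → Ln L → P ≤ L → P' ≤ L → Z P L ≤ Z P' L := by
    intro P P' L hP hP' hL hPL hPL'
    apply le_of_pts
    intro x hx hxZ
    by_cases hxL : x ≤ L
    · exact hxL.trans (hLZ P' L hP' hL hPL')
    · have hE : Pl (L ⊔ x) := by
        rw [Pl, finrank_sup_pt hx hxL, hL]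
      have h1 := key P L P' L (L ⊔ x) hP hL hPL hP' hL hPL' hE le_sup_left le_sup_left
        (sup_le (hLZ P L hP hL hPL) hxZ)
      exact le_sup_right.trans h1
  intro P P' L hP hP' hL hPL hPL'
  exact le_antisymm (key2 P P' L hP hP' hL hPL hPL') (key2 P' P L hP' hP hL hPL' hPL)

end Pool.Agent.Helper8.GL4T
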