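import Pool.Agent.Helper79.GL4.GoalsB

/-!
# GL4, packet LINK (MP_27a5f8_al)
-/

namespace Pool.Agent.Helper8.GL4L

open Module Submodule GL4

section
variable {F : Type} [Field F] {V : Type} [AddCommGroup V] [Module F V] [FiniteDimensional F V]

/-- the invariant subspace of a flag -/
theorem flagZ {K : Subgroup (V ≃ₗ[F] V)} {c' : ℕ}
    (hH : ∀ H : Submodule F V, Hy H → ∃ B' C', BC (sGrp K H) c' B' C') : ParB K c' := by
  intro P H hP hHy hPH
  obtain ⟨B', C', h⟩ := hH H hHy
  set PH : Submodule F H := P.comap H.subtype with hPHdef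
  have hPHpt : Pt PH := by
    rw [Pt, hPHdef, finrank_restr hPH]; exact hP
  have hback : PH.map H.subtype = P := incl_restr hPH
  refine ⟨(B' PH).map H.subtype, ?_, incl_le _, ?_, ?_, ?_⟩
  · conv_lhs => rw [← hback]
    exact Submodule.map_mono (h.selfB PH hPHpt)
  · have h1 := h.dimB PH hPHpt
    rw [finrank_incl]
    rw [Hy] at hHy
    omega
  · intro k hk hkP hkH
    obtain ⟨g, hg, hgk⟩ := exists_sGrp hk hkH
    have h1 : im g PH = PH := by
      rw [hPHdef, im_restr hkH hgk hPH, hkP]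
    have h2 := h.eqB g hg PH hPHpt
    rw [h1] at h2
    rw [← im_incl hgk, ← h2]
  · intro y z hy hz hyH hzH hyZ hzZ
    have hy' : Pt (y.comap H.subtype) := by rw [Pt, finrank_restr hyH]; exact hy
    have hz' : Pt (z.comap H.subtype) := by rw [Pt, finrank_restr hzH]; exact hz
    have hyn : ¬ y.comap H.subtype ≤ B' PH := by
      intro hle
      apply hyZ
      have := Submodule.map_mono (f := H.subtype) hle
      rwa [incl_restr hyH] at this
    have hzn : ¬ z.comap H.subtype ≤ B' PH := by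
      intro hle
      apply hzZ
      have := Submodule.map_mono (f := H.subtype) hle
      rwa [incl_restr hzH] at this
    obtain ⟨g, hg, hgP, hgy⟩ := h.trB PH _ _ hPHpt hy' hz' hyn hzn
    obtain ⟨k, hk, hkH, hkg⟩ := hg
    refine ⟨k, hk, ?_, hkH, ?_⟩
    · have := im_incl hkg PH
      rw [hgP, hback] at this
      exact this.symm
    · have := im_incl hkg (y.comap H.subtype)
      rw [hgy, incl_restr hyH, incl_restr hzH] at this
      exact this.symm

end

section
variable {F : Type} [Field F] [Finite F] {W : Type} [AddCommGroup W] [Module F W]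
  [FiniteDimensional F W]

def Pset (U : Submodule F W) : Set (Submodule F W) := {x | Pt x ∧ x ≤ U}
def Hset (U : Submodule F W) : Set (Submodule F W) := {H | Hy H ∧ U ≤ H}

theorem ncard_Pset (U : Submodule F W) : (Pset U).ncard = br (Nat.card F) (finrank F U) := by
  rw [← card_pts_le U, ← Nat.card_coe_set_eq]
  rfl

theorem ncard_Hset (U : Submodule F W) :
    (Hset U).ncard = br (Nat.card F) (finrank F W - finrank F U) := by
  rw [← card_hys_ge U, ← Nat.card_coe_set_eq]
  rfl

theorem q2 : 2 ≤ Nat.card F := by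
  have : Nontrivial F := inferInstance
  have := Finite.one_lt_card (α := F)
  omega

/-- count of the special flags through a hyperplane -/
theorem countA2 {G : Subgroup (W ≃ₗ[F] W)} {n : ℕ} {N : Submodule F W → Submodule F W}
    (hy : HyTrans G) (hm : 1 ≤ finrank F W) (hN : NN G n N) (H : Submodule F W) (hH : Hy H) :
    {x : Submodule F W | Pt x ∧ x ≤ H ∧ ¬ N x ≤ H}.ncard =
      br (Nat.card F) (finrank F W - 1) - br (Nat.card F) (finrank F W - (n + 1)) := by
  classical
  have : Fintype (Submodule F W) := Fintype.ofFinite _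
  set s : Finset (Submodule F W) := Finset.univ.filter Pt with hs
  set t : Finset (Submodule F W) := Finset.univ.filter Hy with ht
  set r : Submodule F W → Submodule F W → Prop := fun x H => x ≤ H ∧ ¬ N x ≤ H with hr
  have hdc := Finset.sum_card_bipartiteAbove_eq_sum_card_bipartiteBelow (s := s) (t := t) r
  have h1 : ∀ x ∈ s, (t.bipartiteAbove r x).card =
      br (Nat.card F) (finrank F W - 1) - br (Nat.card F) (finrank F W - (n + 1)) := by
    intro x hx
    have hxp : Pt x := by simpa [hs] using hx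
    rw [← Set.ncard_coe_finset]
    have e : ((t.bipartiteAbove r x : Finset _) : Set (Submodule F W)) = Hset x \ Hset (N x) := by
      ext H
      simp only [Finset.coe_bipartiteAbove, Set.mem_setOf_eq, Hset, Set.mem_diff, ht, hr,
        Finset.mem_filter, Finset.mem_univ, true_and, not_and]
      constructor
      · rintro ⟨a, b, c⟩
        exact ⟨⟨a, b⟩, fun _ => c⟩
      · rintro ⟨⟨a, b⟩, c⟩
        exact ⟨a, b, c a⟩
    rw [e, Set.ncard_diff _ (Set.toFinite _), ncard_Hset, ncard_Hset, hN.dimN x hxp, hxp]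
    intro H hH'
    exact ⟨hH'.1, (hN.selfN x hxp).trans hH'.2⟩
  have h2 : ∀ H' ∈ t, (s.bipartiteBelow r H').card =
      {x : Submodule F W | Pt x ∧ x ≤ H ∧ ¬ N x ≤ H}.ncard := by
    intro H' hH'
    have hH'' : Hy H' := by simpa [ht] using hH'
    obtain ⟨g, hg, hgH⟩ := hy H H' hH hH''
    rw [← Set.ncard_coe_finset]
    have e : ((s.bipartiteBelow r H' : Finset _) : Set (Submodule F W)) =
        (im g) '' {x : Submodule F W | Pt x ∧ x ≤ H ∧ ¬ N x ≤ H} := by
      ext x
      simp only [Finset.coe_bipartiteBelow, Set.mem_setOf_eq, Set.mem_image, hs, hr,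
        Finset.mem_filter, Finset.mem_univ, true_and]
      constructor
      · rintro ⟨a, b, c⟩
        refine ⟨im g⁻¹ x, ⟨a.im, ?_, ?_⟩, im_im_inv g x⟩
        · rw [← im_le_im_iff g, im_im_inv, hgH]; exact b
        · rw [hN.eqN g⁻¹ (inv_mem hg) x a, ← im_le_im_iff g, im_im_inv, hgH]; exact c
      · rintro ⟨y, ⟨a, b, c⟩, rfl⟩
        refine ⟨a.im, ?_, ?_⟩
        · rw [← hgH]; exact im_mono g b
        · rw [hN.eqN g hg y a, ← hgH, im_le_im_iff]; exact c
    rw [e, Set.ncard_image_of_injective]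
    intro x y hxy
    exact (im_inj g).1 hxy
  rw [Finset.sum_congr rfl h1, Finset.sum_congr rfl h2, Finset.sum_const, Finset.sum_const,
    smul_eq_mul, smul_eq_mul] at hdc
  have hsc : s.card = br (Nat.card F) (finrank F W) := by
    rw [← Set.ncard_coe_finset]
    have e : ((s : Finset _) : Set (Submodule F W)) = Pset ⊤ := by
      ext x
      simp [hs, Pset]
    rw [e, ncard_Pset, finrank_top]
  have htc : t.card = br (Nat.card F) (finrank F W) := by
    rw [← Set.ncard_coe_finset]
    have e : ((t : Finset _) : Set (Submodule F W)) = Hset ⊥ := by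
      ext x
      simp [ht, Hset]
    rw [e, ncard_Hset, finrank_bot, Nat.sub_zero]
  rw [hsc, htc] at hdc
  have hpos : 0 < br (Nat.card F) (finrank F W) := br_pos hm
  exact (Nat.eq_of_mul_eq_mul_left hpos hdc).symm

end

theorem br_inj {q a b : ℕ} (hq : 1 ≤ q) (h : br q a = br q b) : a = b := by
  rcases lt_trichotomy a b with h1 | h1 | h1
  · exact absurd h (br_strictMono hq h1).ne
  · exact h1
  · exact absurd h.symm (br_strictMono hq h1).ne

theorem link : GL4.LINK := by
  intro F _ _ V _ _ _ K P c n c' B C N hn3 hK hP hBC hNN hHH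
  have hpar := flagZ hHH
  have hmV : finrank F (V ⧸ P) + 1 = finrank F V := by
    have := Submodule.finrank_quotient_add_finrank P
    rw [hP] at this
    exact this
  -- choice of `Z`
  have hex : ∀ H' : Submodule F (V ⧸ P), ∃ Z : Submodule F V, Hy H' →
      (P ≤ Z ∧ Z ≤ H'.comap P.mkQ ∧ finrank F Z + c' + 1 = finrank F V ∧
      (∀ g ∈ K, im g P = P → im g (H'.comap P.mkQ) = H'.comap P.mkQ → im g Z = Z) ∧
      ∀ x y, Pt x → Pt y → x ≤ H'.comap P.mkQ → y ≤ H'.comap P.mkQ → ¬ x ≤ Z → ¬ y ≤ Z →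
        ∃ g ∈ K, im g P = P ∧ im g (H'.comap P.mkQ) = H'.comap P.mkQ ∧ im g x = y) := by
    intro H'
    by_cases hH' : Hy H'
    · obtain ⟨Z, hZ⟩ := hpar P (H'.comap P.mkQ) hP hH'.up (le_up H')
      exact ⟨Z, fun _ => hZ⟩
    · exact ⟨⊥, fun h => absurd h hH'⟩
  choose Z hZ using hex
  set L : Submodule F (V ⧸ P) → Submodule F (V ⧸ P) := fun H' => (Z H').map P.mkQ with hL
  -- existence of one hyperplane, `c' ≥ 1`
  have hc'1 : 1 ≤ c' := by
    have hne : (⊥ : Submodule F V) ≠ ⊤ := by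
      intro h
      have : finrank F V = 0 := by rw [← finrank_top F V, ← h, finrank_bot]
      omega
    obtain ⟨H, hHy, -, -⟩ := exists_hy_not_ge (T := (⊥ : Submodule F V)) (U := ⊤)
      (fun h => hne (top_le_iff.1 h).symm.symm)
    obtain ⟨B', C', h⟩ := hHH H hHy
    exact h.c1
  have hLle : ∀ H', Hy H' → L H' ≤ H' := by
    intro H' hH'
    exact down_le_iff.2 (hZ H' hH').2.1
  have hLdim : ∀ H', Hy H' → finrank F (L H') + c' + 1 = finrank F (V ⧸ P) := by
    intro H' hH'
    have h1 := finrank_down (hZ H' hH').1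
    have h2 := (hZ H' hH').2.2.1
    rw [hP] at h1
    show finrank F ((Z H').map P.mkQ) + c' + 1 = _
    omega
  have hstab : ∀ H', Hy H' → ∀ g ∈ qGrp K P, im g H' = H' → im g (L H') = L H' := by
    intro H' hH' g hg hgH
    obtain ⟨k, hk, hkP, hgk⟩ := hg
    have h1 := im_up hkP hgk H'
    rw [hgH] at h1
    have h2 := (hZ H' hH').2.2.2.1 k hk hkP h1.symm
    simp only [hL]
    rw [im_down hgk, h2]
  have htrL : ∀ H y z, Hy H → Pt y → Pt z → y ≤ H → z ≤ H → ¬ y ≤ L H → ¬ z ≤ L H →
      ∃ g ∈ qGrp K P, im g H = H ∧ im g y = z := by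
    intro H' y z hH' hy hz hyH hzH hyL hzL
    have hpt : ∀ y : Submodule F (V ⧸ P), Pt y → y ≤ H' → ¬ y ≤ L H' →
        ∃ y' : Submodule F V, Pt y' ∧ y' ≤ H'.comap P.mkQ ∧ ¬ y' ≤ Z H' ∧ y'.map P.mkQ = y := by
      intro y hy hyH hyL
      have h1 : ¬ y.comap P.mkQ ≤ Z H' := by
        intro h
        apply hyL
        have := Submodule.map_mono (f := P.mkQ) h
        rwa [down_up] at this
      obtain ⟨y', hy', hle, hn⟩ := exists_pt_not_le h1
      refine ⟨y', hy', hle.trans (Submodule.comap_mono hyH), hn, ?_⟩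
      have h2 : y'.map P.mkQ ≤ y := down_le_iff.2 hle
      apply Submodule.eq_of_le_of_finrank_le h2
      rw [hy]
      have h3 : y'.map P.mkQ ≠ ⊥ := by
        intro h
        apply hn
        have h4 : y' ≤ LinearMap.ker P.mkQ := LinearMap.le_ker_iff_map.2 h
        rw [ker_mkQ] at h4
        exact h4.trans (hZ H' hH').1
      exact Nat.one_le_iff_ne_zero.2 fun h0 => h3 (Submodule.finrank_eq_zero.1 h0)
    obtain ⟨y', hy', hyH', hyn, hym⟩ := hpt y hy hyH hyL
    obtain ⟨z', hz', hzH', hzn, hzm⟩ := hpt z hz hzH hzL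
    obtain ⟨k, hk, hkP, hkH, hky⟩ := (hZ H' hH').2.2.2.2 y' z' hy' hz' hyH' hzH' hyn hzn
    obtain ⟨g, hg, hgk⟩ := exists_qGrp hk hkP
    refine ⟨g, hg, ?_, ?_⟩
    · have h1 := im_down hgk (H'.comap P.mkQ)
      rw [hkH, down_up] at h1
      exact h1
    · have h1 := im_down hgk y'
      rw [hky, hym, hzm] at h1
      exact h1
  -- the sets `A1`, `A2` coincide
  have hq := q2 (F := F)
  set q := Nat.card F with hqdef
  set m := finrank F (V ⧸ P) with hm
  have hm2 : 2 ≤ m := by omega
  have hn1 : n + 1 ≤ m := by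
    have hne : (⊤ : Submodule F (V ⧸ P)) ≠ ⊥ := by
      intro h
      have : m = 0 := by rw [hm, ← finrank_top F (V ⧸ P), h, finrank_bot]
      omega
    obtain ⟨x, hx, -⟩ := exists_pt_le hne
    rw [← hNN.dimN x hx]
    exact Submodule.finrank_le _
  have hA1card : ∀ H', Hy H' → (Pset H' \ Pset (L H')).ncard + br q (finrank F (L H')) =
      br q (m - 1) := by
    intro H' hH'
    have hsub : Pset (L H') ⊆ Pset H' := fun x hx => ⟨hx.1, hx.2.trans (hLle H' hH')⟩
    have h1 := Set.ncard_diff_add_ncard_of_subset hsub (Set.toFinite _)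
    rw [ncard_Pset, ncard_Pset] at h1
    rw [← hqdef] at h1
    rw [h1]
    congr 1
    rw [Hy] at hH'
    omega
  have hA2card : ∀ H', Hy H' →
      {x : Submodule F (V ⧸ P) | Pt x ∧ x ≤ H' ∧ ¬ N x ≤ H'}.ncard + br q (m - (n + 1)) =
      br q (m - 1) := by
    intro H' hH'
    have h0 := countA2 hBC.hyT (by omega) hNN H' hH'
    rw [← hqdef, ← hm] at h0
    have : br q (m - (n + 1)) ≤ br q (m - 1) := br_mono (by omega)
    omega
  have htrA2 : ∀ H' x x', Hy H' → Pt x → Pt x' → x ≤ H' → x' ≤ H' → ¬ N x ≤ H' → ¬ N x' ≤ H' →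
      ∃ g ∈ qGrp K P, im g H' = H' ∧ im g x = x' := by
    intro H' x x' hH' hx hx' hxH hxH' hnx hnx'
    obtain ⟨g, hg, hgx⟩ := hBC.ptT x x' hx hx'
    have h1 : x' ≤ im g H' := by rw [← hgx]; exact im_mono g hxH
    have h2 : ¬ N x' ≤ im g H' := by
      rw [← hgx, hNN.eqN g hg x hx, im_le_im_iff]; exact hnx
    obtain ⟨g', hg', hgx', hgH'⟩ := hNN.trNH x' (im g H') H' hx' hH'.im hH' h1 hxH' h2 hnx'
    refine ⟨g' * g, mul_mem hg' hg, ?_, ?_⟩
    · rw [im_mul]; exact hgH'
    · rw [im_mul, hgx]; exact hgx'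
  have heq : ∀ H', Hy H' → Pset H' \ Pset (L H') =
      {x : Submodule F (V ⧸ P) | Pt x ∧ x ≤ H' ∧ ¬ N x ≤ H'} := by
    intro H' hH'
    have hnd : ¬ Disjoint (Pset H' \ Pset (L H'))
        {x : Submodule F (V ⧸ P) | Pt x ∧ x ≤ H' ∧ ¬ N x ≤ H'} := by
      intro hd
      have h1 := Set.ncard_union_eq hd (Set.toFinite _) (Set.toFinite _)
      have h2 : (Pset H' \ Pset (L H') ∪
          {x : Submodule F (V ⧸ P) | Pt x ∧ x ≤ H' ∧ ¬ N x ≤ H'}).ncard ≤ (Pset H').ncard := by
        apply Set.ncard_le_ncard _ (Set.toFinite _)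
        rintro x (hx | hx)
        · exact hx.1
        · exact ⟨hx.1, hx.2.1⟩
      rw [ncard_Pset, ← hqdef] at h2
      have hHf : finrank F H' = m - 1 := by
        rw [Hy] at hH'
        omega
      rw [hHf] at h2
      have h3 := hA1card H' hH'
      have h4 := hA2card H' hH'
      have h5 : br q (finrank F (L H')) ≤ br q (m - 2) := by
        apply br_mono
        have := hLdim H' hH'
        omega
      have h6 : br q (m - (n + 1)) ≤ br q (m - 2) := by
        apply br_mono
        have := hNN.n1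
        omega
      have h7 : br q (m - 1) = br q (m - 2) + q ^ (m - 2) := by
        have : m - 1 = m - 2 + 1 := by omega
        rw [this, br_succ]
      have h8 : br q (m - 2) < q ^ (m - 2) := br_lt_pow hq
      omega
    rw [Set.not_disjoint_iff] at hnd
    obtain ⟨x0, hx0, hx0'⟩ := hnd
    ext x
    constructor
    · rintro ⟨⟨hx, hxH⟩, hxn⟩
      obtain ⟨g, hg, hgH, hgx⟩ := htrL H' x0 x hH' hx0'.1 hx hx0'.2.1 hxH
        (fun h => hx0.2 ⟨hx0'.1, h⟩) (fun h => hxn ⟨hx, h⟩)
      refine ⟨hx, hxH, ?_⟩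
      rw [← hgx, hNN.eqN g hg x0 hx0'.1, ← hgH, im_le_im_iff]
      exact hx0'.2.2
    · rintro ⟨hx, hxH, hxn⟩
      obtain ⟨g, hg, hgH, hgx⟩ := htrA2 H' x0 x hH' hx0'.1 hx hx0'.2.1 hxH hx0'.2.2 hxn
      refine ⟨⟨hx, hxH⟩, fun h => hx0.2 ⟨hx0'.1, ?_⟩⟩
      have h1 := h.2
      rw [← hgx, ← hstab H' hH' g hg hgH, im_le_im_iff] at h1
      exact h1
  -- conclusions
  have hncp : n = c' := by
    obtain ⟨H', hH'⟩ : ∃ H' : Submodule F (V ⧸ P), Hy H' := by
      have hne : ¬ (⊤ : Submodule F (V ⧸ P)) ≤ ⊥ := by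
        intro h
        have h' := le_bot_iff.1 h
        have : m = 0 := by rw [hm, ← finrank_top F (V ⧸ P), h', finrank_bot]
        omega
      obtain ⟨H, hHy, -, -⟩ := exists_hy_not_ge hne
      exact ⟨H, hHy⟩
    have h1 := hA1card H' hH'
    have h2 := hA2card H' hH'
    rw [heq H' hH'] at h1
    have h3 : br q (finrank F (L H')) = br q (m - (n + 1)) := by omega
    have h4 := br_inj (by omega) h3
    have h5 := hLdim H' hH'
    omega
  refine ⟨hncp, L, hBC, hNN, ?_, ?_, htrL⟩
  · intro H' hH'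
    rw [hncp]
    exact hLdim H' hH'
  · intro x H' hx hH'
    by_cases hxH : x ≤ H'
    · have h1 := Set.ext_iff.1 (heq H' hH') x
      constructor
      · intro hxL
        by_contra hnx
        have := h1.2 ⟨hx, hxH, hnx⟩
        exact this.2 ⟨hx, hxL⟩
      · intro hnx
        by_contra hxL
        have := h1.1 ⟨⟨hx, hxH⟩, fun h => hxL h.2⟩
        exact this.2.2 hnx
    · constructor
      · intro hxL
        exact absurd (hxL.trans (hLle H' hH')) hxH
      · intro hnx
        exact absurd ((hNN.selfN x hx).trans hnx) hxH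

end Pool.Agent.Helper8.GL4L
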